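import Pool.Agent.V11202.CK.Geo

set_option autoImplicit false
set_option linter.unnecessarySeqFocus false

open scoped ContDiff Topology
open Filter

namespace Pool.Agent.V11202.CK

/-- the first derivatives of the metric -/
theorem pd_gq (l i j : Fin 3) (x : Eu 3) :
    pd l (fun y => gq y i j) x = if l = 0 ∧ i = 1 ∧ j = 1 then 4 * x 0 ^ 3 else 0 := by
  have h4 : pd l (fun v => v 0 ^ 4) x = if l = 0 then 4 * x 0 ^ 3 else 0 := by
    have := pd_pow l 1 3 x
    simp only [one_mul, Nat.reduceAdd] at this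
    rw [this]
    norm_num
  by_cases h : i = 1 ∧ j = 1
  · obtain ⟨rfl, rfl⟩ := h
    have : (fun y => gq y 1 1) = fun v => v 0 ^ 4 := rfl
    rw [this, h4]
    simp
  · rw [if_neg (fun hh => h hh.2)]
    have : (fun y => gq y i j) = fun _ => gq 0 i j := by
      funext y
      fin_cases i <;> fin_cases j <;> simp [gq, ppM] at h ⊢
    rw [this, pd_const]

/-- explicit Christoffel symbols -/
noncomputable def gam (k i j : Fin 3) (x : Eu 3) : ℝ :=
  if k = 0 ∧ i = 1 ∧ j = 1 then -2 * x 0 ^ 3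
  else if k = 2 ∧ ((i = 0 ∧ j = 1) ∨ (i = 1 ∧ j = 0)) then 4 * x 0 ^ 3 else 0

theorem Gam_gq (k i j : Fin 3) : Gam gq k i j = gam k i j := by
  funext x
  simp only [Gam, gq_inv, pd_gq, Fin.sum_univ_three, gam]
  fin_cases k <;> fin_cases i <;> fin_cases j <;> simp <;> ring

theorem pd_gam (l k i j : Fin 3) (x : Eu 3) : pd l (gam k i j) x =
    if l = 0 ∧ k = 0 ∧ i = 1 ∧ j = 1 then -6 * x 0 ^ 2
    else if l = 0 ∧ k = 2 ∧ ((i = 0 ∧ j = 1) ∨ (i = 1 ∧ j = 0)) then 12 * x 0 ^ 2 else 0 := by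
  by_cases h1 : k = 0 ∧ i = 1 ∧ j = 1
  · have e : gam k i j = fun v => -2 * v 0 ^ (2 + 1) := by
      funext v; simp only [gam, if_pos h1]
    rw [e, pd_pow]
    by_cases hl : l = 0
    · rw [if_pos hl, if_pos ⟨hl, h1⟩]; push_cast; ring
    · rw [if_neg hl, if_neg (fun h => hl h.1), if_neg (fun h => hl h.1)]
  · by_cases h2 : k = 2 ∧ ((i = 0 ∧ j = 1) ∨ (i = 1 ∧ j = 0))
    · have e : gam k i j = fun v => 4 * v 0 ^ (2 + 1) := by
        funext v; simp only [gam, if_neg h1, if_pos h2]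
      rw [e, pd_pow]
      by_cases hl : l = 0
      · rw [if_pos hl, if_neg (fun h => h1 h.2), if_pos ⟨hl, h2⟩]; push_cast; ring
      · rw [if_neg hl, if_neg (fun h => h1 h.2), if_neg (fun h => hl h.1)]
    · have e : gam k i j = fun _ => 0 := by
        funext v; simp only [gam, if_neg h1, if_neg h2]
      rw [e, pd_const, if_neg (fun h => h1 h.2), if_neg (fun h => h2 h.2)]

theorem Ric_gq (i j : Fin 3) : Ric gq i j = fun x => if i = 1 ∧ j = 1 then -6 * x 0 ^ 2 else 0 := by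
  funext x
  simp only [Ric, Gam_gq, pd_gam, Fin.sum_univ_three]
  fin_cases i <;> fin_cases j <;> simp [gam]

theorem Scal_gq (x : Eu 3) : Scal gq x = 0 := by
  simp [Scal, Ric_gq, Fin.sum_univ_three, gq_inv]

theorem Sch_gq (i j : Fin 3) : Sch gq i j = fun x => if i = 1 ∧ j = 1 then -6 * x 0 ^ 2 else 0 := by
  funext x
  simp [Sch, Scal_gq, Ric_gq]

theorem pd_Sch (l i j : Fin 3) (x : Eu 3) : pd l (Sch gq i j) x =
    if l = 0 ∧ i = 1 ∧ j = 1 then -12 * x 0 else 0 := by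
  rw [Sch_gq]
  by_cases h : i = 1 ∧ j = 1
  · have e : (fun x : Eu 3 => if i = 1 ∧ j = 1 then -6 * x 0 ^ 2 else 0) =
        fun v => -6 * v 0 ^ (1 + 1) := by
      funext v; rw [if_pos h]
    rw [e, pd_pow]
    by_cases hl : l = 0
    · rw [if_pos hl, if_pos ⟨hl, h⟩]; push_cast; ring
    · rw [if_neg hl, if_neg (fun h => hl h.1)]
  · have e : (fun x : Eu 3 => if i = 1 ∧ j = 1 then -6 * x 0 ^ 2 else 0) = fun _ => 0 := by
      funext v; rw [if_neg h]
    rw [e, pd_const, if_neg (fun hh => h hh.2)]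

theorem dSch_gq (a b c : Fin 3) (x : Eu 3) : dSch gq a b c x =
    if a = 0 ∧ b = 1 ∧ c = 1 then -12 * x 0 else 0 := by
  simp only [dSch, pd_Sch]
  simp only [Gam_gq, Sch_gq, Fin.sum_univ_three, gam]
  fin_cases a <;> fin_cases b <;> fin_cases c <;> simp

theorem Cot_gq (c a b : Fin 3) (x : Eu 3) : Cot gq c a b x =
    (if a = 0 ∧ b = 1 ∧ c = 1 then -12 * x 0 else 0) -
      (if b = 0 ∧ a = 1 ∧ c = 1 then -12 * x 0 else 0) := by
  rw [Cot, dSch_gq, dSch_gq]

theorem Cot_ne (c a b : Fin 3) (x : Eu 3) (h : Cot gq c a b x ≠ 0) : x 0 ≠ 0 := by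
  intro h0
  apply h
  rw [Cot_gq, h0]
  simp

theorem Cot_ne' : Cot gq 1 0 1 ![1, 0, 0] ≠ 0 := by
  rw [Cot_gq]
  simp

/-- `∂_t` -/
def kt : Eu 3 → Eu 3 := fun _ => ![0, 0, 1]

theorem kt_normal : IsNormal gq kt := by
  intro x a b
  simp only [Cot_gq, kt, Fin.sum_univ_three]
  simp

theorem kt_ckf : IsCKF gq kt := by
  refine ⟨fun i => contDiff_const, fun _ => 0, contDiff_const, fun x a b => ?_⟩
  have hk : ∀ l c, pd l (fun y => kt y c) x = 0 := fun l c => pd_const l _ x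
  simp only [LieD, hk, pd_gq]
  simp [kt, Fin.sum_univ_three]

end Pool.Agent.V11202.CK
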