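import Mathlib

set_option autoImplicit false
set_option linter.unusedSimpArgs false

namespace Pool.Agent.V11202.CK

variable {R : Type*} [CommRing R]

theorem D2 (D : Derivation ℤ R R) : D (2 : R) = 0 := by
  rw [← one_add_one_eq_two, map_add, D.map_one_eq_zero, add_zero]
theorem D3 (D : Derivation ℤ R R) : D (3 : R) = 0 := by
  rw [← two_add_one_eq_three, map_add, D.map_one_eq_zero, D2, add_zero]
theorem D4 (D : Derivation ℤ R R) : D (4 : R) = 0 := by
  have : (4 : R) = 2 + 2 := by norm_num
  rw [this, map_add, D2, add_zero]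
theorem D6 (D : Derivation ℤ R R) : D (6 : R) = 0 := by
  have : (6 : R) = 4 + 2 := by norm_num
  rw [this, map_add, D2, D4, add_zero]
theorem D12 (D : Derivation ℤ R R) : D (12 : R) = 0 := by
  have : (12 : R) = 6 + 6 := by norm_num
  rw [this, map_add, D6, add_zero]

/-- null conformal Killing fields of `2 dt dy + dx² + X⁴ dy²` are multiples of `∂_t` -/
theorem null_ckf (dx dy dt : Derivation ℤ R R)
    (cyx : ∀ f, dy (dx f) = dx (dy f)) (ctx : ∀ f, dt (dx f) = dx (dt f))
    (cty : ∀ f, dt (dy f) = dy (dt f))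
    (h2 : ∀ f : R, 2 * f = 0 → f = 0) (h3 : ∀ f : R, 3 * f = 0 → f = 0)
    (hreal : ∀ a b c : R, a ^ 2 + b ^ 2 + c ^ 2 = 0 → c = 0)
    {X Xi : R} (hX : X * Xi = 1) (hXx : dx X = 1) (hXy : dy X = 0) (hXt : dt X = 0)
    {a b c l : R} (e1 : 2 * dt b = 0) (e2 : 2 * dx a = l)
    (e3 : 4 * X ^ 3 * a + 2 * (dy c + X ^ 4 * dy b) = l * X ^ 4)
    (e4 : dx b + dt a = 0) (e5 : dy b + dt c + X ^ 4 * dt b = l)
    (e6 : dx c + X ^ 4 * dx b + dy a = 0)
    (nul : 2 * b * c + a ^ 2 + X ^ 4 * b ^ 2 = 0) :
    b = 0 ∧ a = 0 ∧ dx c = 0 ∧ dy c = 0 ∧ dt c = 0 := by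
  have hXc : ∀ f : R, X * f = 0 → f = 0 := by
    intro f hf
    have : Xi * (X * f) = 0 := by rw [hf, mul_zero]
    linear_combination this - f * hX
  have f1 : dt b = 0 := h2 _ e1
  subst e2
  have f5 : dy b + dt c = 2 * dx a := by linear_combination e5 - X ^ 4 * f1
  have f3 : dy c + 2 * X ^ 3 * a + X ^ 4 * dy b - X ^ 4 * dx a = 0 := by
    apply h2; linear_combination e3
  have f4 : dt a = - dx b := by linear_combination e4
  -- commutation consequences
  have btx : dt (dx b) = 0 := by rw [ctx, f1, map_zero]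
  have bty : dt (dy b) = 0 := by rw [cty, f1, map_zero]
  have atx : dt (dx a) = - dx (dx b) := by rw [ctx, f4, map_neg]
  have aty : dt (dy a) = - dx (dy b) := by rw [cty, f4, map_neg, cyx]
  -- A
  have A : dx (dx a) = dx (dy b) := by
    have p1 := congrArg dx f5
    have p2 := congrArg dt e6
    simp only [map_add, Derivation.leibniz, Derivation.leibniz_pow, smul_eq_mul, nsmul_eq_mul,
      D2, D3, D4, D6, D12, hXt, btx, aty, map_zero, ctx] at p1 p2
    apply sub_eq_zero.1
    apply h2
    linear_combination p2 - p1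
  have B : dy (dy b) + 2 * X ^ 3 * dx b = 2 * dx (dy a) + X ^ 4 * dx (dx b) := by
    have p1 := congrArg dy f5
    have p2 := congrArg dt f3
    simp only [map_add, map_sub, Derivation.leibniz, Derivation.leibniz_pow, smul_eq_mul,
      nsmul_eq_mul, D2, D3, D4, D6, D12, hXt, hXy, btx, bty, atx, aty, f4, map_zero, cyx, cty] at p1 p2
    linear_combination p1 - p2
  have C : dy (dy a) - 6 * X ^ 2 * a + 2 * X ^ 3 * dx a - 4 * X ^ 3 * dy b +
      X ^ 4 * dx (dx a) = 0 := by
    have p1 := congrArg dy e6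
    have p2 := congrArg dx f3
    simp only [map_add, map_sub, Derivation.leibniz, Derivation.leibniz_pow, smul_eq_mul,
      nsmul_eq_mul, D2, D3, D4, D6, D12, hXx, hXy, map_zero, cyx, Nat.cast_ofNat, Nat.add_one_sub_one,
      Nat.reduceSub] at p1 p2
    linear_combination p1 - p2
  -- D, E, F
  have Dd : dx (dx (dx b)) = 0 := by
    have p1 := congrArg dt A
    rw [ctx, atx, map_neg, ctx, bty, map_zero] at p1
    linear_combination -p1
  have Ee : dx (dx (dy b)) = 0 := by
    have p1 := congrArg dt B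
    simp only [map_add, map_sub, map_neg, Derivation.leibniz, Derivation.leibniz_pow, smul_eq_mul,
      nsmul_eq_mul, D2, D3, D4, D6, D12, hXt, btx, bty, ctx, cty, f4, cyx, f1, map_zero] at p1
    apply h2
    linear_combination p1
  have Ff : - dx (dy (dy b)) + 6 * X ^ 2 * dx b - 2 * X ^ 3 * dx (dx b) = 0 := by
    have p1 := congrArg dt C
    simp only [map_add, map_sub, map_neg, Derivation.leibniz, Derivation.leibniz_pow, smul_eq_mul,
      nsmul_eq_mul, D2, D3, D4, D6, D12, hXt, btx, bty, ctx, cty, f4, f1, map_zero, cyx] at p1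
    linear_combination p1 + X ^ 4 * Dd
  have G : dx b = 0 := by
    have p1 := congrArg dx Ff
    have p2 := congrArg dy Ee
    simp only [map_add, map_sub, map_neg, Derivation.leibniz, Derivation.leibniz_pow, smul_eq_mul,
      nsmul_eq_mul, D2, D3, D4, D6, D12, hXx, map_zero, cyx, Nat.cast_ofNat, Nat.add_one_sub_one] at p1 p2
    apply hXc
    apply h2
    apply h2
    apply h3
    linear_combination p1 + p2 + 2 * X ^ 3 * Dd
  have bxy : dx (dy b) = 0 := by rw [← cyx, G, map_zero]
  have axx : dx (dx a) = 0 := by rw [A, bxy]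
  have B' : dy (dy b) = 2 * dx (dy a) := by
    have : dx (dx b) = 0 := by rw [G, map_zero]
    linear_combination B - 2 * X ^ 3 * G + X ^ 4 * this
  have C1 : dx (dy (dy a)) - 12 * X * a - 12 * X ^ 2 * dy b = 0 := by
    have p1 := congrArg dx C
    simp only [map_add, map_sub, map_neg, Derivation.leibniz, Derivation.leibniz_pow, smul_eq_mul,
      nsmul_eq_mul, D2, D3, D4, D6, D12, hXx, map_zero, axx, bxy, Nat.cast_ofNat, Nat.add_one_sub_one] at p1
    linear_combination p1
  have C2 : a + X * dx a + 2 * X * dy b = 0 := by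
    have p1 := congrArg dx C1
    have p2 : dx (dx (dy (dy a))) = 0 := by
      rw [← cyx, ← cyx, ← cyx, ← cyx, axx, map_zero, map_zero]
    simp only [map_add, map_sub, map_neg, Derivation.leibniz, Derivation.leibniz_pow, smul_eq_mul,
      nsmul_eq_mul, D2, D3, D4, D6, D12, hXx, map_zero, p2, bxy, Nat.cast_ofNat, Nat.add_one_sub_one] at p1
    apply h2
    apply h2
    apply h3
    linear_combination -p1
  have C3 : dx a = - dy b := by
    have p1 := congrArg dx C2
    simp only [map_add, map_sub, map_neg, Derivation.leibniz, Derivation.leibniz_pow, smul_eq_mul,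
      nsmul_eq_mul, D2, D3, D4, D6, D12, hXx, map_zero, axx, bxy] at p1
    have : dx a + dy b = 0 := by
      apply h2
      linear_combination p1
    linear_combination this
  have a1 : a = - (X * dy b) := by linear_combination C2 - X * C3
  have byy : dy (dy b) = 0 := by
    have p1 := congrArg dy C3
    rw [map_neg, cyx] at p1
    apply h3
    linear_combination B' + 2 * p1
  have cx : dx c = 0 := by
    have p1 := congrArg dy a1
    simp only [map_neg, Derivation.leibniz, smul_eq_mul, hXy] at p1
    linear_combination e6 - X ^ 4 * G - p1 + X * byy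
  have fin : dy b ^ 2 + (X * b) ^ 2 + (X * b) ^ 2 = 0 := by
    have p1 := congrArg dx nul
    rw [a1] at p1
    simp only [map_add, map_sub, map_neg, Derivation.leibniz, Derivation.leibniz_pow, smul_eq_mul,
      nsmul_eq_mul, D2, D3, D4, D6, D12, hXx, map_zero, G, cx, bxy, Nat.cast_ofNat, Nat.add_one_sub_one,
      pow_one] at p1
    apply hXc
    apply h2
    linear_combination p1
  have b0 : b = 0 := hXc _ (hreal _ _ _ fin)
  have a0 : a = 0 := by rw [a1, b0, map_zero, mul_zero, neg_zero]
  refine ⟨b0, a0, cx, ?_, ?_⟩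
  · rw [b0, a0, map_zero, map_zero] at f3
    linear_combination f3
  · rw [b0, a0, map_zero, map_zero] at f5
    linear_combination f5

end Pool.Agent.V11202.CK
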