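import Pool.Agent.V11202.CK.Germ

set_option autoImplicit false

open scoped ContDiff Topology
open Filter

namespace Pool.Agent.V11202.CK

/-- real `n × n` matrices -/
abbrev Mt (n : ℕ) : Type := Matrix (Fin n) (Fin n) ℝ

/-- Christoffel symbols `Γ^k_{ij}` of the matrix field `G` -/
noncomputable def Gam {n : ℕ} (G : Eu n → Mt n) (k i j : Fin n) (x : Eu n) : ℝ :=
  (1 / 2) * ∑ l, (G x)⁻¹ k l *
    (pd i (fun y => G y j l) x + pd j (fun y => G y i l) x - pd l (fun y => G y i j) x)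

/-- Ricci tensor
`R_{ij} = ∂_k Γ^k_{ij} - ∂_j Γ^k_{ik} + Γ^k_{kl} Γ^l_{ij} - Γ^k_{jl} Γ^l_{ik}` -/
noncomputable def Ric {n : ℕ} (G : Eu n → Mt n) (i j : Fin n) (x : Eu n) : ℝ :=
  ∑ k, pd k (Gam G k i j) x - ∑ k, pd j (Gam G k i k) x +
    ∑ k, ∑ l, (Gam G k k l x * Gam G l i j x - Gam G k j l x * Gam G l i k x)

/-- scalar curvature -/
noncomputable def Scal {n : ℕ} (G : Eu n → Mt n) (x : Eu n) : ℝ :=
  ∑ i, ∑ j, (G x)⁻¹ i j * Ric G i j x

/-- three-dimensional Schouten tensor `P_{ab} = Ric_{ab} - (1/4) Scal g_{ab}` -/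
noncomputable def Sch (G : Eu 3 → Mt 3) (a b : Fin 3) (x : Eu 3) : ℝ :=
  Ric G a b x - (1 / 4) * Scal G x * G x a b

/-- `∇_a P_{bc}` -/
noncomputable def dSch (G : Eu 3 → Mt 3) (a b c : Fin 3) (x : Eu 3) : ℝ :=
  pd a (Sch G b c) x - ∑ d, Gam G d a b x * Sch G d c x - ∑ d, Gam G d a c x * Sch G b d x

/-- the Cotton tensor `Y_{cab} = ∇_a P_{bc} - ∇_b P_{ac}` -/
noncomputable def Cot (G : Eu 3 → Mt 3) (c a b : Fin 3) (x : Eu 3) : ℝ :=
  dSch G a b c x - dSch G b a c x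

/-- `G` is the matrix of a smooth Lorentzian metric on `ℝ³`: smooth entries, symmetric,
congruent to `diag(-1,1,1)` at every point -/
structure IsLorentz (G : Eu 3 → Mt 3) : Prop where
  smooth : ∀ i j, ContDiff ℝ ∞ (fun x => G x i j)
  symm : ∀ x i j, G x i j = G x j i
  sign : ∀ x, ∃ A : Mt 3, IsUnit A.det ∧ A.transpose * G x * A = Matrix.diagonal ![-1, 1, 1]

/-- Lie derivative `(L_k g)_{ab}` -/
noncomputable def LieD (G : Eu 3 → Mt 3) (k : Eu 3 → Eu 3) (a b : Fin 3) (x : Eu 3) : ℝ :=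
  ∑ c, (k x c * pd c (fun y => G y a b) x + G x c b * pd a (fun y => k y c) x +
    G x a c * pd b (fun y => k y c) x)

/-- conformal Killing field on `ℝ³` -/
structure IsCKF (G : Eu 3 → Mt 3) (k : Eu 3 → Eu 3) : Prop where
  smooth : ∀ i, ContDiff ℝ ∞ (fun x => k x i)
  ckf : ∃ lam : Eu 3 → ℝ, ContDiff ℝ ∞ lam ∧ ∀ x a b, LieD G k a b x = lam x * G x a b

/-- normality `Y_{abr} k^r = 0` -/
def IsNormal (G : Eu 3 → Mt 3) (k : Eu 3 → Eu 3) : Prop :=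
  ∀ x a b, ∑ r, Cot G a b r x * k x r = 0

/-- the matrix of `(1/2)(dt ⊗ dy + dy ⊗ dt) + dx² + F dy²` in the coordinates `(x, y, t)` -/
noncomputable def ppM (F : Eu 3 → ℝ) (v : Eu 3) : Mt 3 :=
  !![1, 0, 0; 0, F v, 1 / 2; 0, 1 / 2, 0]

/-- the metric `g_h = (1/2)(dt ⊗ dy + dy ⊗ dt) + dx² + (x³ + h(y) x) dy²` -/
noncomputable def gh (h : ℝ → ℝ) : Eu 3 → Mt 3 := ppM (fun v => v 0 ^ 3 + h (v 1) * v 0)

/-- the metric `(1/2)(dt ⊗ dy + dy ⊗ dt) + dx² + x⁴ dy²` -/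
noncomputable def gq : Eu 3 → Mt 3 := ppM (fun v => v 0 ^ 4)

/-- the Jacobian matrix of a map -/
noncomputable def Jac (φ : Eu 3 → Eu 3) (x : Eu 3) : Mt 3 :=
  Matrix.of fun a i => pd i (fun y => φ y a) x

/-- `φ` is smooth on `U` and `φ^* G' = e^{2u} G` on `U` -/
structure ConfMap (U : Set (Eu 3)) (G G' : Eu 3 → Mt 3) (φ : Eu 3 → Eu 3) (u : Eu 3 → ℝ) :
    Prop where
  smooth : ∀ i, ContDiffOn ℝ ∞ (fun x => φ x i) U
  smooth_u : ContDiffOn ℝ ∞ u U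
  eq : ∀ x ∈ U, (Jac φ x).transpose * G' (φ x) * Jac φ x = Real.exp (2 * u x) • G x

/-! ### computation for `gq` -/

theorem gq_symm (x : Eu 3) (i j : Fin 3) : gq x i j = gq x j i := by
  fin_cases i <;> fin_cases j <;> simp [gq, ppM]

theorem gq_smooth (i j : Fin 3) : ContDiff ℝ ∞ (fun x => gq x i j) := by
  have h0 : ContDiff ℝ ∞ (fun v : Eu 3 => v 0 ^ 4) := (contDiff_apply ℝ ℝ (0 : Fin 3)).pow 4
  fin_cases i <;> fin_cases j <;> simp [gq, ppM] <;>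
    first | exact contDiff_const | exact h0

theorem gq_sign (x : Eu 3) : ∃ A : Mt 3, IsUnit A.det ∧
    A.transpose * gq x * A = Matrix.diagonal ![-1, 1, 1] := by
  refine ⟨!![0, 0, 1; 1, 1, 0; -(x 0 ^ 4) - 1, -(x 0 ^ 4) + 1, 0], ?_, ?_⟩
  · rw [isUnit_iff_ne_zero, Matrix.det_fin_three]
    simp
  · ext i j
    fin_cases i <;> fin_cases j <;>
      simp [gq, ppM, Matrix.mul_apply, Fin.sum_univ_three] <;> ring

theorem gq_lorentz : IsLorentz gq := ⟨gq_smooth, gq_symm, gq_sign⟩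

theorem gq_inv (x : Eu 3) : (gq x)⁻¹ = !![1, 0, 0; 0, 0, 2; 0, 2, -4 * x 0 ^ 4] := by
  apply Matrix.inv_eq_left_inv
  ext i j
  fin_cases i <;> fin_cases j <;>
    simp [gq, ppM, Matrix.mul_apply, Fin.sum_univ_three] <;> ring

theorem pd_const (i : Fin 3) (c : ℝ) (x : Eu 3) : pd i (fun _ => c) x = 0 := by
  simp [pd]

theorem pd_zero' (i : Fin 3) (x : Eu 3) : pd i 0 x = 0 := by
  show pd i (fun _ => (0 : ℝ)) x = 0
  exact pd_const i 0 x

/-- derivative of `c x^m` -/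
theorem pd_pow (i : Fin 3) (c : ℝ) (m : ℕ) (x : Eu 3) :
    pd i (fun v => c * v 0 ^ (m + 1)) x = if i = 0 then c * ((m + 1) * x 0 ^ m) else 0 := by
  have h0 : HasFDerivAt (fun v : Eu 3 => v 0) (ContinuousLinearMap.proj (R := ℝ)
      (φ := fun _ : Fin 3 => ℝ) 0) x := hasFDerivAt_apply 0 x
  have h1 := (h0.pow (m + 1)).const_mul c
  rw [pd, h1.fderiv]
  simp only [Nat.add_one_sub_one, ContinuousLinearMap.smul_apply, ContinuousLinearMap.proj_apply,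
    Pi.single_apply, smul_eq_mul, nsmul_eq_mul]
  split_ifs with h h' h'
  · push_cast; ring
  · exact absurd h.symm h'
  · exact absurd h'.symm h
  · ring

end Pool.Agent.V11202.CK
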