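import Mathlib

set_option autoImplicit false

open scoped ContDiff Topology
open Filter

namespace Pool.Agent.V11202.CK

/-- `ℝ^n` -/
abbrev Eu (n : ℕ) : Type := Fin n → ℝ

/-- partial derivative in the `i`-th coordinate -/
noncomputable def pd {n : ℕ} (i : Fin n) (f : Eu n → ℝ) (x : Eu n) : ℝ :=
  fderiv ℝ f x (Pi.single i 1)

variable {n : ℕ} {p : Eu n}

theorem cda_pd {F : Eu n → ℝ} (hF : ContDiffAt ℝ ∞ F p) (i : Fin n) :
    ContDiffAt ℝ ∞ (pd i F) p :=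
  (hF.fderiv_right (m := ∞) (by simp)).clm_apply contDiffAt_const

theorem pd_congr {F G : Eu n → ℝ} (h : F =ᶠ[𝓝 p] G) (i : Fin n) : pd i F =ᶠ[𝓝 p] pd i G := by
  filter_upwards [h.fderiv (𝕜 := ℝ)] with x hx
  simp only [pd, hx]

theorem cda_ev {F : Eu n → ℝ} (hF : ContDiffAt ℝ ∞ F p) : ∀ᶠ x in 𝓝 p, ContDiffAt ℝ 2 F x :=
  (hF.of_le (show ((2 : ℕ∞) : WithTop ℕ∞) ≤ ((⊤ : ℕ∞) : WithTop ℕ∞) from
    WithTop.coe_le_coe.2 le_top)).eventually (by simp)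

theorem pd_add {F G : Eu n → ℝ} (hF : ContDiffAt ℝ ∞ F p) (hG : ContDiffAt ℝ ∞ G p) (i : Fin n) :
    pd i (F + G) =ᶠ[𝓝 p] pd i F + pd i G := by
  filter_upwards [cda_ev hF, cda_ev hG] with x h1 h2
  simp only [pd, Pi.add_apply]
  rw [fderiv_add (h1.differentiableAt (by norm_num)) (h2.differentiableAt (by norm_num))]
  rfl

theorem pd_mul {F G : Eu n → ℝ} (hF : ContDiffAt ℝ ∞ F p) (hG : ContDiffAt ℝ ∞ G p) (i : Fin n) :
    pd i (F * G) =ᶠ[𝓝 p] F * pd i G + G * pd i F := by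
  filter_upwards [cda_ev hF, cda_ev hG] with x h1 h2
  simp only [pd, Pi.add_apply, Pi.mul_apply]
  rw [fderiv_mul (h1.differentiableAt (by norm_num)) (h2.differentiableAt (by norm_num))]
  rfl

theorem pd_comm {F : Eu n → ℝ} (hF : ContDiffAt ℝ ∞ F p) (i j : Fin n) :
    pd i (pd j F) =ᶠ[𝓝 p] pd j (pd i F) := by
  filter_upwards [cda_ev hF] with x h1
  have hs : IsSymmSndFDerivAt ℝ F x := h1.isSymmSndFDerivAt (by simp)
  have hd : DifferentiableAt ℝ (fderiv ℝ F) x :=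
    (h1.fderiv_right (m := 1) (by norm_num)).differentiableAt (by norm_num)
  have key : ∀ v w : Eu n, fderiv ℝ (fun y => fderiv ℝ F y v) x w = fderiv ℝ (fderiv ℝ F) x w v := by
    intro v w
    rw [fderiv_clm_apply hd (differentiableAt_const _)]
    simp
  show fderiv ℝ (fun y => fderiv ℝ F y (Pi.single j 1)) x (Pi.single i 1) =
    fderiv ℝ (fun y => fderiv ℝ F y (Pi.single i 1)) x (Pi.single j 1)
  rw [key, key]
  exact hs _ _

/-- germs at `p` of smooth functions -/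
noncomputable def SG (p : Eu n) : Subring (Germ (𝓝 p) ℝ) where
  carrier := {a | ∃ F : Eu n → ℝ, ContDiffAt ℝ ∞ F p ∧ (F : Germ (𝓝 p) ℝ) = a}
  mul_mem' := by
    rintro _ _ ⟨F, hF, rfl⟩ ⟨G, hG, rfl⟩
    exact ⟨F * G, hF.mul hG, rfl⟩
  one_mem' := ⟨fun _ => 1, contDiffAt_const, rfl⟩
  add_mem' := by
    rintro _ _ ⟨F, hF, rfl⟩ ⟨G, hG, rfl⟩
    exact ⟨F + G, hF.add hG, rfl⟩
  zero_mem' := ⟨fun _ => 0, contDiffAt_const, rfl⟩
  neg_mem' := by
    rintro _ ⟨F, hF, rfl⟩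
    exact ⟨-F, hF.neg, rfl⟩

/-- the germ of a smooth function -/
noncomputable def mk (F : Eu n → ℝ) (hF : ContDiffAt ℝ ∞ F p) : SG p := ⟨F, F, hF, rfl⟩

theorem mk_eq {F G : Eu n → ℝ} {hF : ContDiffAt ℝ ∞ F p} {hG : ContDiffAt ℝ ∞ G p} :
    mk F hF = mk G hG ↔ F =ᶠ[𝓝 p] G := by
  rw [mk, mk, Subtype.mk.injEq, Germ.coe_eq]

theorem mk_surj (a : SG p) : ∃ F, ∃ hF : ContDiffAt ℝ ∞ F p, a = mk F hF := by
  obtain ⟨_, F, hF, rfl⟩ := a
  exact ⟨F, hF, rfl⟩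

theorem mk_add {F G : Eu n → ℝ} (hF : ContDiffAt ℝ ∞ F p) (hG : ContDiffAt ℝ ∞ G p) :
    mk F hF + mk G hG = mk (F + G) (hF.add hG) := rfl

theorem mk_mul {F G : Eu n → ℝ} (hF : ContDiffAt ℝ ∞ F p) (hG : ContDiffAt ℝ ∞ G p) :
    mk F hF * mk G hG = mk (F * G) (hF.mul hG) := rfl

theorem mk_pow {F : Eu n → ℝ} (hF : ContDiffAt ℝ ∞ F p) (m : ℕ) :
    mk F hF ^ m = mk (F ^ m) (hF.pow m) := rfl

theorem mk_one : (1 : SG p) = mk (fun _ => 1) contDiffAt_const := rfl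

theorem mk_zero : (0 : SG p) = mk (fun _ => 0) contDiffAt_const := rfl

/-- underlying function of the derivation -/
noncomputable def Df (i : Fin n) (a : SG p) : SG p :=
  mk (pd i (mk_surj a).choose) (cda_pd (mk_surj a).choose_spec.choose i)

theorem Df_mk (i : Fin n) {F : Eu n → ℝ} (hF : ContDiffAt ℝ ∞ F p) :
    Df i (mk F hF) = mk (pd i F) (cda_pd hF i) := by
  rw [Df, mk_eq]
  apply pd_congr
  have h := (mk_surj (mk F hF)).choose_spec.choose_spec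
  exact (mk_eq.1 h).symm

theorem Df_add (i : Fin n) (a b : SG p) : Df i (a + b) = Df i a + Df i b := by
  obtain ⟨F, hF, rfl⟩ := mk_surj a
  obtain ⟨G, hG, rfl⟩ := mk_surj b
  rw [mk_add, Df_mk, Df_mk, Df_mk, mk_add, mk_eq]
  exact pd_add hF hG i

theorem Df_mul (i : Fin n) (a b : SG p) : Df i (a * b) = a * Df i b + b * Df i a := by
  obtain ⟨F, hF, rfl⟩ := mk_surj a
  obtain ⟨G, hG, rfl⟩ := mk_surj b
  rw [mk_mul, Df_mk, Df_mk, Df_mk, mk_mul, mk_mul, mk_add, mk_eq]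
  exact pd_mul hF hG i

/-- the partial derivative as a derivation of the ring of germs -/
noncomputable def D (i : Fin n) : Derivation ℤ (SG p) (SG p) :=
  Derivation.mk' (AddMonoidHom.toIntLinearMap (AddMonoidHom.mk' (Df i) (Df_add i)))
    (fun a b => Df_mul i a b)

theorem D_mk (i : Fin n) {F : Eu n → ℝ} (hF : ContDiffAt ℝ ∞ F p) :
    D i (mk F hF) = mk (pd i F) (cda_pd hF i) := Df_mk i hF

theorem D_comm (i j : Fin n) (a : SG p) : D i (D j a) = D j (D i a) := by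
  obtain ⟨F, hF, rfl⟩ := mk_surj a
  rw [D_mk, D_mk, D_mk, D_mk, mk_eq]
  exact pd_comm hF i j

theorem SG_tor (m : ℝ) (hm : m ≠ 0) (a : SG p)
    (h : mk (fun _ => m) contDiffAt_const * a = 0) : a = 0 := by
  obtain ⟨F, hF, rfl⟩ := mk_surj a
  rw [mk_mul, mk_zero, mk_eq] at h
  rw [mk_zero, mk_eq]
  filter_upwards [h] with x hx
  have : m * F x = 0 := hx
  rcases mul_eq_zero.1 this with h | h
  · exact absurd h hm
  · exact h

theorem SG_two (a : SG p) (h : 2 * a = 0) : a = 0 := SG_tor 2 (by norm_num) a h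
theorem SG_three (a : SG p) (h : 3 * a = 0) : a = 0 := SG_tor 3 (by norm_num) a h

theorem SG_real (a b c : SG p) (h : a ^ 2 + b ^ 2 + c ^ 2 = 0) : c = 0 := by
  obtain ⟨F, hF, rfl⟩ := mk_surj a
  obtain ⟨G, hG, rfl⟩ := mk_surj b
  obtain ⟨K, hK, rfl⟩ := mk_surj c
  rw [mk_pow, mk_pow, mk_pow, mk_add, mk_add, mk_zero, mk_eq] at h
  rw [mk_zero, mk_eq]
  filter_upwards [h] with x hx
  have : F x ^ 2 + G x ^ 2 + K x ^ 2 = 0 := hx
  nlinarith [sq_nonneg (F x), sq_nonneg (G x), sq_nonneg (K x)]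

instance : Nontrivial (SG p) := ⟨0, 1, fun h => by
  rw [mk_zero, mk_one, mk_eq] at h
  have := h.self_of_nhds
  norm_num at this⟩

end Pool.Agent.V11202.CK
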