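import Pool.Agent.V11202.CK.Core

set_option autoImplicit false
set_option linter.unusedSimpArgs false
set_option linter.unusedVariables false

namespace Pool.Agent.V11202.CK

variable {R : Type*} [CommRing R]

/-- naturality of the Lie derivative -/
theorem ckf_eq (dx dy dt Da Db : Derivation ℤ R R)
    (ax : ∀ f, Da (dx f) = dx (Da f)) (ay : ∀ f, Da (dy f) = dy (Da f))
    (at' : ∀ f, Da (dt f) = dt (Da f))
    (bx : ∀ f, Db (dx f) = dx (Db f)) (by' : ∀ f, Db (dy f) = dy (Db f))
    (bt : ∀ f, Db (dt f) = dt (Db f))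
    {ξ η τ P E a b c Gab Gxb Gyb Gtb Gax Gay Gat : R}
    (hab : Da ξ * Db ξ + P * Da η * Db η + Da η * Db τ + Da τ * Db η = E * Gab)
    (hxb : dx ξ * Db ξ + P * dx η * Db η + dx η * Db τ + dx τ * Db η = E * Gxb)
    (hyb : dy ξ * Db ξ + P * dy η * Db η + dy η * Db τ + dy τ * Db η = E * Gyb)
    (htb : dt ξ * Db ξ + P * dt η * Db η + dt η * Db τ + dt τ * Db η = E * Gtb)
    (hax : Da ξ * dx ξ + P * Da η * dx η + Da η * dx τ + Da τ * dx η = E * Gax)
    (hay : Da ξ * dy ξ + P * Da η * dy η + Da η * dy τ + Da τ * dy η = E * Gay)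
    (hat : Da ξ * dt ξ + P * Da η * dt η + Da η * dt τ + Da τ * dt η = E * Gat)
    (k1 : a * dx ξ + b * dy ξ + c * dt ξ = 0) (k2 : a * dx η + b * dy η + c * dt η = 0)
    (k3 : a * dx τ + b * dy τ + c * dt τ = 1) (kP : a * dx P + b * dy P + c * dt P = 0) :
    E * (a * dx Gab + b * dy Gab + c * dt Gab + (Da a * Gxb + Da b * Gyb + Da c * Gtb) +
      (Db a * Gax + Db b * Gay + Db c * Gat)) + (a * dx E + b * dy E + c * dt E) * Gab = 0 := by
  have m1 := congrArg dx hab
  have m2 := congrArg dy hab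
  have m3 := congrArg dt hab
  have p1 := congrArg Da k1
  have p2 := congrArg Da k2
  have p3 := congrArg Da k3
  have q1 := congrArg Db k1
  have q2 := congrArg Db k2
  have q3 := congrArg Db k3
  simp only [map_add, Derivation.leibniz, smul_eq_mul, ax, ay, at', bx, by', bt, map_zero,
    Derivation.map_one_eq_zero] at m1 m2 m3 p1 p2 p3 q1 q2 q3
  linear_combination -(a * m1 + b * m2 + c * m3) + Db ξ * p1 + Da ξ * q1 +
    P * (Db η * p2 + Da η * q2) + Db τ * p2 + Da τ * q2 + Db η * p3 + Da η * q3 +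
    Da η * Db η * kP - (Da a * hxb + Da b * hyb + Da c * htb) -
    (Db a * hax + Db b * hay + Db c * hat)

theorem no_iso [Nontrivial R] (dx dy dt : Derivation ℤ R R)
    (cyx : ∀ f, dy (dx f) = dx (dy f)) (ctx : ∀ f, dt (dx f) = dx (dt f))
    (cty : ∀ f, dt (dy f) = dy (dt f))
    (h2 : ∀ f : R, 2 * f = 0 → f = 0) (h3 : ∀ f : R, 3 * f = 0 → f = 0)
    (hreal : ∀ a b c : R, a ^ 2 + b ^ 2 + c ^ 2 = 0 → c = 0)
    {X Xi : R} (hX : X * Xi = 1) (hXx : dx X = 1) (hXy : dy X = 0) (hXt : dt X = 0)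
    {ξ η τ H H1 E F : R} (hEF : E * F = 1)
    (Hx : dx H = H1 * dx η) (Hy : dy H = H1 * dy η) (Ht : dt H = H1 * dt η)
    (xx : dx ξ * dx ξ + (ξ ^ 3 + H * ξ) * dx η * dx η + dx η * dx τ + dx τ * dx η = E * 1)
    (yy : dy ξ * dy ξ + (ξ ^ 3 + H * ξ) * dy η * dy η + dy η * dy τ + dy τ * dy η = E * X ^ 4)
    (tt : dt ξ * dt ξ + (ξ ^ 3 + H * ξ) * dt η * dt η + dt η * dt τ + dt τ * dt η = E * 0)
    (xy : dx ξ * dy ξ + (ξ ^ 3 + H * ξ) * dx η * dy η + dx η * dy τ + dx τ * dy η = E * 0)
    (xt : dx ξ * dt ξ + (ξ ^ 3 + H * ξ) * dx η * dt η + dx η * dt τ + dx τ * dt η = E * 0)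
    (yt : dy ξ * dt ξ + (ξ ^ 3 + H * ξ) * dy η * dt η + dy η * dt τ + dy τ * dt η = E * 1) :
    False := by
  have hEc : ∀ f : R, E * f = 0 → f = 0 := by
    intro f hf
    have : F * (E * f) = 0 := by rw [hf, mul_zero]
    linear_combination this - f * hEF
  have hFc : ∀ f : R, F * f = 0 → f = 0 := by
    intro f hf
    have : E * (F * f) = 0 := by rw [hf, mul_zero]
    linear_combination this - f * hEF
  set P : R := ξ ^ 3 + H * ξ with hP
  have yx : dy ξ * dx ξ + P * dy η * dx η + dy η * dx τ + dy τ * dx η = E * 0 := by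
    linear_combination xy
  have tx : dt ξ * dx ξ + P * dt η * dx η + dt η * dx τ + dt τ * dx η = E * 0 := by
    linear_combination xt
  have ty : dt ξ * dy ξ + P * dt η * dy η + dt η * dy τ + dt τ * dy η = E * 1 := by
    linear_combination yt
  -- the matrix identity
  let J : Matrix (Fin 3) (Fin 3) R := !![dx ξ, dy ξ, dt ξ; dx η, dy η, dt η; dx τ, dy τ, dt τ]
  let G : Matrix (Fin 3) (Fin 3) R := !![1, 0, 0; 0, X ^ 4, 1; 0, 1, 0]
  let Gi : Matrix (Fin 3) (Fin 3) R := !![1, 0, 0; 0, 0, 1; 0, 1, -X ^ 4]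
  let Gh : Matrix (Fin 3) (Fin 3) R := !![1, 0, 0; 0, P, 1; 0, 1, 0]
  let Ghi : Matrix (Fin 3) (Fin 3) R := !![1, 0, 0; 0, 0, 1; 0, 1, -P]
  have hJ : J.transpose * Gh * J = E • G := by
    ext i j
    fin_cases i <;> fin_cases j <;>
      simp [J, G, Gh, Matrix.mul_apply, Fin.sum_univ_three]
    · linear_combination xx
    · linear_combination xy
    · linear_combination xt
    · linear_combination yx
    · linear_combination yy
    · linear_combination yt
    · linear_combination tx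
    · linear_combination ty
    · linear_combination tt
  have hG : Gi * G = 1 := by
    ext i j
    fin_cases i <;> fin_cases j <;>
      simp [G, Gi, Matrix.mul_apply, Fin.sum_univ_three]
  have hGh : Gh * Ghi = 1 := by
    ext i j
    fin_cases i <;> fin_cases j <;>
      simp [Gh, Ghi, Matrix.mul_apply, Fin.sum_univ_three]
  have hN : (F • (Gi * J.transpose * Gh)) * J = 1 := by
    rw [Matrix.smul_mul, Matrix.mul_assoc Gi, Matrix.mul_assoc Gi, hJ, Matrix.mul_smul, hG,
      smul_smul, mul_comm F E, hEF, one_smul]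
  have hN' := mul_eq_one_comm.1 hN
  have hK : F • (J * Gi * J.transpose) = Ghi := by
    have h1 : (F • (J * Gi * J.transpose)) * Gh = 1 := by
      rw [← hN', Matrix.mul_smul, Matrix.smul_mul]
      simp only [Matrix.mul_assoc]
    have h2 : (F • (J * Gi * J.transpose)) * (Gh * Ghi) = Ghi := by
      rw [← Matrix.mul_assoc, h1, Matrix.one_mul]
    rwa [hGh, Matrix.mul_one] at h2
  have hen : ∀ i j, (J * Gi * J.transpose) i j =
      J i 0 * J j 0 + J i 2 * J j 1 + (J i 1 - X ^ 4 * J i 2) * J j 2 := by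
    intro i j
    have g00 : Gi 0 0 = 1 := rfl
    have g01 : Gi 0 1 = 0 := rfl
    have g02 : Gi 0 2 = 0 := rfl
    have g10 : Gi 1 0 = 0 := rfl
    have g11 : Gi 1 1 = 0 := rfl
    have g12 : Gi 1 2 = 1 := rfl
    have g20 : Gi 2 0 = 0 := rfl
    have g21 : Gi 2 1 = 1 := rfl
    have g22 : Gi 2 2 = -X ^ 4 := rfl
    simp only [Matrix.mul_apply, Matrix.transpose_apply, Fin.sum_univ_three, g00, g01, g02, g10,
      g11, g12, g20, g21, g22]
    ring
  have k1' : F * (dx ξ * dx η + dt ξ * dy η + (dy ξ - X ^ 4 * dt ξ) * dt η) = 0 := by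
    have := congrFun (congrFun hK 0) 1
    rw [Matrix.smul_apply, hen, smul_eq_mul] at this
    exact this
  have k2' : F * (dx η * dx η + dt η * dy η + (dy η - X ^ 4 * dt η) * dt η) = 0 := by
    have := congrFun (congrFun hK 1) 1
    rw [Matrix.smul_apply, hen, smul_eq_mul] at this
    exact this
  have k3' : F * (dx τ * dx η + dt τ * dy η + (dy τ - X ^ 4 * dt τ) * dt η) = 1 := by
    have := congrFun (congrFun hK 2) 1
    rw [Matrix.smul_apply, hen, smul_eq_mul] at this
    exact this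
  -- the vector field
  obtain ⟨a, ha⟩ : ∃ a, a = F * dx η := ⟨_, rfl⟩
  obtain ⟨b, hb⟩ : ∃ b, b = F * dt η := ⟨_, rfl⟩
  obtain ⟨c, hc⟩ : ∃ c, c = F * (dy η - X ^ 4 * dt η) := ⟨_, rfl⟩
  have k1 : a * dx ξ + b * dy ξ + c * dt ξ = 0 := by
    rw [ha, hb, hc]; linear_combination k1'
  have k2 : a * dx η + b * dy η + c * dt η = 0 := by
    rw [ha, hb, hc]; linear_combination k2'
  have k3 : a * dx τ + b * dy τ + c * dt τ = 1 := by
    rw [ha, hb, hc]; linear_combination k3'
  have kP : a * dx P + b * dy P + c * dt P = 0 := by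
    rw [hP]
    simp only [map_add, Derivation.leibniz, Derivation.leibniz_pow, smul_eq_mul, nsmul_eq_mul,
      Hx, Hy, Ht]
    push_cast
    linear_combination (3 * ξ ^ 2 + H) * k1 + ξ * H1 * k2
  have nul : 2 * b * c + a ^ 2 + X ^ 4 * b ^ 2 = 0 := by
    rw [ha, hb, hc]
    rw [ha, hb, hc] at k2
    linear_combination F * k2
  obtain ⟨l, hl⟩ : ∃ l, l = -(F * (a * dx E + b * dy E + c * dt E)) := ⟨_, rfl⟩
  have rr : ∀ f : R, dx (dx f) = dx (dx f) := fun _ => rfl
  have exx := ckf_eq dx dy dt dx dx (fun _ => rfl) (fun f => (cyx f).symm) (fun f => (ctx f).symm)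
    (fun _ => rfl) (fun f => (cyx f).symm) (fun f => (ctx f).symm)
    xx xx yx tx xx xy xt k1 k2 k3 kP
  have eyy := ckf_eq dx dy dt dy dy cyx (fun _ => rfl) (fun f => (cty f).symm)
    cyx (fun _ => rfl) (fun f => (cty f).symm)
    yy xy yy ty yx yy yt k1 k2 k3 kP
  have ett := ckf_eq dx dy dt dt dt ctx cty (fun _ => rfl) ctx cty (fun _ => rfl)
    tt xt yt tt tx ty tt k1 k2 k3 kP
  have exy := ckf_eq dx dy dt dx dy (fun _ => rfl) (fun f => (cyx f).symm) (fun f => (ctx f).symm)
    cyx (fun _ => rfl) (fun f => (cty f).symm)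
    xy xy yy ty xx xy xt k1 k2 k3 kP
  have ext := ckf_eq dx dy dt dx dt (fun _ => rfl) (fun f => (cyx f).symm) (fun f => (ctx f).symm)
    ctx cty (fun _ => rfl) xt xt yt tt xx xy xt k1 k2 k3 kP
  have eyt := ckf_eq dx dy dt dy dt cyx (fun _ => rfl) (fun f => (cty f).symm)
    ctx cty (fun _ => rfl) yt xt yt tt yx yy yt k1 k2 k3 kP
  simp only [map_zero, Derivation.map_one_eq_zero, Derivation.leibniz_pow, hXx, hXy, hXt,
    smul_eq_mul, nsmul_eq_mul, Nat.cast_ofNat, Nat.add_one_sub_one, mul_zero, mul_one, add_zero,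
    zero_add] at exx eyy ett exy ext eyt
  have key := null_ckf dx dy dt cyx ctx cty h2 h3 hreal hX hXx hXy hXt (a := a) (b := b) (c := c)
    (l := l) ?_ ?_ ?_ ?_ ?_ ?_ nul
  · obtain ⟨b0, a0, cx, cy, ct⟩ := key
    have ηt : dt η = 0 := hFc _ (by rw [← hb, b0])
    have ηx : dx η = 0 := hFc _ (by rw [← ha, a0])
    rw [ηt, mul_zero, sub_zero] at hc
    have ηy : dy η = E * c := by rw [hc]; linear_combination -(dy η) * hEF
    have cτ : c * dt τ = 1 := by rw [a0, b0] at k3; linear_combination k3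
    have hcc : ∀ f : R, c * f = 0 → f = 0 := by
      intro f hf
      have : dt τ * (c * f) = 0 := by rw [hf, mul_zero]
      linear_combination this - f * cτ
    have ξt : dt ξ = 0 := hcc _ (by rw [a0, b0] at k1; linear_combination k1)
    have Ex : dx E = 0 := by
      apply hcc
      have h1 := congrArg dx ηy
      rw [← cyx, ηx, map_zero, Derivation.leibniz, cx] at h1
      simp only [smul_eq_mul] at h1
      linear_combination -h1
    have xx' : dx ξ * dx ξ = E := by rw [ηx] at xx; linear_combination xx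
    have hξc : ∀ f : R, dx ξ * f = 0 → f = 0 := by
      intro f hf
      apply hEc
      rw [← xx', mul_assoc, hf, mul_zero]
    have ξxx : dx (dx ξ) = 0 := by
      apply hξc
      apply h2
      have h1 := congrArg dx xx'
      rw [Derivation.leibniz, Ex] at h1
      simp only [smul_eq_mul] at h1
      linear_combination h1
    have ξxxy : dx (dx (dy ξ)) = 0 := by rw [← cyx, ← cyx, ξxx, map_zero]
    have hηc : ∀ f : R, dy η * f = 0 → f = 0 := by
      intro f hf
      rw [ηy, mul_assoc] at hf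
      exact hcc _ (hEc _ hf)
    have ηyx : dx (dy η) = 0 := by rw [← cyx, ηx, map_zero]
    have xy' : dx ξ * dy ξ + dx τ * dy η = 0 := by rw [ηx] at xy; linear_combination xy
    have x1 : dx ξ * dx (dy ξ) + dx (dx τ) * dy η = 0 := by
      have h1 := congrArg dx xy'
      simp only [map_add, Derivation.leibniz, smul_eq_mul, ξxx, ηyx, map_zero] at h1
      linear_combination h1
    have τxxx : dx (dx (dx τ)) = 0 := by
      apply hηc
      have h1 := congrArg dx x1
      simp only [map_add, Derivation.leibniz, smul_eq_mul, ξxx, ηyx, ξxxy, map_zero] at h1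
      linear_combination h1
    have τxxxy : dx (dx (dx (dy τ))) = 0 := by
      rw [← cyx, ← cyx, ← cyx, τxxx, map_zero]
    have Hx0 : dx H = 0 := by rw [Hx, ηx, mul_zero]
    have y0 : dy ξ ^ 2 + (ξ ^ 3 + H * ξ) * dy η ^ 2 + 2 * (dy η * dy τ) = E * X ^ 4 := by
      linear_combination yy
    have y1 := congrArg dx y0
    simp only [map_add, Derivation.leibniz, Derivation.leibniz_pow, smul_eq_mul, nsmul_eq_mul,
      ηyx, Hx0, Ex, hXx, D2, Nat.cast_ofNat, Nat.add_one_sub_one, mul_zero, add_zero, mul_one,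
      pow_one] at y1
    have y2 := congrArg dx y1
    simp only [map_add, Derivation.leibniz, Derivation.leibniz_pow, smul_eq_mul, nsmul_eq_mul,
      ηyx, Hx0, Ex, hXx, D2, D3, D4, ξxx, ξxxy, Nat.cast_ofNat, Nat.add_one_sub_one, mul_zero,
      add_zero, mul_one, pow_one, zero_add, map_zero] at y2
    have y3 := congrArg dx y2
    simp only [map_add, Derivation.leibniz, Derivation.leibniz_pow, smul_eq_mul, nsmul_eq_mul,
      ηyx, Hx0, Ex, hXx, D2, D3, D4, ξxx, ξxxy, τxxxy, Nat.cast_ofNat, Nat.add_one_sub_one,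
      mul_zero, add_zero, mul_one, pow_one, zero_add, map_zero] at y3
    have y4 := congrArg dx y3
    simp only [map_add, Derivation.leibniz, Derivation.leibniz_pow, smul_eq_mul, nsmul_eq_mul,
      ηyx, Hx0, Ex, hXx, D2, D3, D4, ξxx, ξxxy, τxxxy, Nat.cast_ofNat, Nat.add_one_sub_one,
      mul_zero, add_zero, mul_one, pow_one, zero_add, map_zero, Derivation.map_one_eq_zero] at y4
    have hE0 : E = 0 := by
      apply h2
      apply h2
      apply h2
      apply h3
      linear_combination -y4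
    rw [hE0, zero_mul] at hEF
    exact zero_ne_one hEF
  · apply hEc; linear_combination ett
  · rw [hl]; linear_combination F * exx - 2 * dx a * hEF
  · rw [hl]; linear_combination F * eyy - (4 * X ^ 3 * a + 2 * (dy c + X ^ 4 * dy b)) * hEF
  · apply hEc; linear_combination ext
  · rw [hl]; linear_combination F * eyt - (dy b + dt c + X ^ 4 * dt b) * hEF
  · apply hEc; linear_combination exy

end Pool.Agent.V11202.CK
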