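import Pool.Agent.V11202.CK.Comp
import Pool.Agent.V11202.CK.Iso

set_option autoImplicit false
set_option linter.unnecessarySeqFocus false

open scoped ContDiff Topology
open Filter

namespace Pool.Agent.V11202.CK

theorem cda_eventually {n : ℕ} {p : Eu n} {F : Eu n → ℝ} (hF : ContDiffAt ℝ ∞ F p) :
    ∀ᶠ x in 𝓝 p, DifferentiableAt ℝ F x := by
  filter_upwards [cda_ev hF] with x h
  exact h.differentiableAt (by norm_num)

theorem pd_half {F : Eu 3 → ℝ} {x : Eu 3} (hF : DifferentiableAt ℝ F x) (i : Fin 3) :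
    pd i (fun y => F y / 2) x = pd i F x / 2 := by
  have e : (fun y => F y / 2) = fun y => (1 / 2 : ℝ) * F y := by funext y; ring
  rw [pd, pd, e, fderiv_const_mul hF]
  simp only [_root_.smul_apply, smul_eq_mul]
  ring

theorem pd_comp {F : Eu 3 → ℝ} {x : Eu 3} (hF : DifferentiableAt ℝ F x) {h : ℝ → ℝ}
    (hh : ContDiff ℝ ∞ h) (i : Fin 3) :
    pd i (fun y => h (F y)) x = deriv h (F x) * pd i F x := by
  have h1 : HasDerivAt h (deriv h (F x)) (F x) :=
    ((hh.differentiable (by simp)) (F x)).hasDerivAt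
  have h2 := h1.comp_hasFDerivAt x hF.hasFDerivAt
  have h3 : fderiv ℝ (fun y => h (F y)) x = _ := h2.fderiv
  rw [pd, pd, h3]
  rfl

theorem conf_eq {h : ℝ → ℝ} {φ : Eu 3 → Eu 3} {u : Eu 3 → ℝ} {x : Eu 3} {G : Eu 3 → Mt 3}
    (e : (Jac φ x).transpose * gh h (φ x) * Jac φ x = Real.exp (2 * u x) • G x) (i j : Fin 3) :
    pd i (fun y => φ y 0) x * pd j (fun y => φ y 0) x +
      (φ x 0 ^ 3 + h (φ x 1) * φ x 0) * pd i (fun y => φ y 1) x * pd j (fun y => φ y 1) x +
      (pd i (fun y => φ y 1) x * pd j (fun y => φ y 2) x / 2 +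
        pd i (fun y => φ y 2) x * pd j (fun y => φ y 1) x / 2) =
      Real.exp (2 * u x) * G x i j := by
  have h1 := congrFun (congrFun e i) j
  rw [Matrix.smul_apply, smul_eq_mul] at h1
  rw [← h1]
  simp [Matrix.mul_apply, Fin.sum_univ_three, gh, ppM, Jac]
  ring

theorem no_conf {p : Eu 3} (hp : p 0 ≠ 0) {U : Set (Eu 3)} (hU : IsOpen U) (hpU : p ∈ U)
    {h : ℝ → ℝ} (hh : ContDiff ℝ ∞ h) {φ : Eu 3 → Eu 3} {u : Eu 3 → ℝ}
    (hc : ConfMap U gq (gh h) φ u) : False := by
  have hUn : U ∈ 𝓝 p := hU.mem_nhds hpU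
  have s : ∀ i, ContDiffAt ℝ ∞ (fun x => φ x i) p := fun i => (hc.smooth i).contDiffAt hUn
  have s0 := s 0
  have s1 := s 1
  have s2 := s 2
  have su : ContDiffAt ℝ ∞ u p := hc.smooth_u.contDiffAt hUn
  have sτ : ContDiffAt ℝ ∞ (fun x => φ x 2 / 2) p := s2.div_const 2
  have sH : ContDiffAt ℝ ∞ (fun x => h (φ x 1)) p := hh.contDiffAt.comp p s1
  have hh' : ContDiff ℝ ∞ (deriv h) := by
    have h3 : ContDiff ℝ (∞ + 1) h := hh
    rw [contDiff_succ_iff_deriv] at h3
    exact h3.2.2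
  have sH1 : ContDiffAt ℝ ∞ (fun x => deriv h (φ x 1)) p := hh'.contDiffAt.comp p s1
  have sE : ContDiffAt ℝ ∞ (fun x => Real.exp (2 * u x)) p := (contDiffAt_const.mul su).exp
  have sF : ContDiffAt ℝ ∞ (fun x => Real.exp (-(2 * u x))) p := (contDiffAt_const.mul su).neg.exp
  have sX : ContDiffAt ℝ ∞ (fun x : Eu 3 => x 0) p := (contDiff_apply ℝ ℝ (0 : Fin 3)).contDiffAt
  have sXi : ContDiffAt ℝ ∞ (fun x : Eu 3 => (x 0)⁻¹) p := sX.inv hp
  have d1 := cda_eventually s1
  have d2 := cda_eventually s2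
  have hX : mk _ sX * mk _ sXi = 1 := by
    rw [mk_mul, mk_one, mk_eq]
    have : ∀ᶠ x in 𝓝 p, x 0 ≠ 0 := sX.continuousAt.eventually_ne hp
    filter_upwards [this] with x hx
    exact mul_inv_cancel₀ hx
  have hXd : ∀ i : Fin 3, D i (mk _ sX) = if i = 0 then 1 else 0 := by
    intro i
    have h1 : ∀ x : Eu 3, pd i (fun x : Eu 3 => x 0) x = if i = 0 then 1 else 0 := by
      intro x
      have := pd_pow i 1 0 x
      simpa using this
    rw [D_mk]
    split_ifs with hi
    · rw [mk_one, mk_eq]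
      exact Eventually.of_forall fun x => by rw [h1, if_pos hi]
    · rw [mk_zero, mk_eq]
      exact Eventually.of_forall fun x => by rw [h1, if_neg hi]
  have hEF : mk _ sE * mk _ sF = 1 := by
    rw [mk_mul, mk_one, mk_eq]
    exact Eventually.of_forall fun x => by
      show Real.exp (2 * u x) * Real.exp (-(2 * u x)) = 1
      rw [← Real.exp_add]; simp
  have hH : ∀ i, D i (mk _ sH) = mk _ sH1 * D i (mk _ s1) := by
    intro i
    rw [D_mk, D_mk, mk_mul, mk_eq]
    filter_upwards [d1] with x hx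
    exact pd_comp hx hh i
  have K : ∀ i j (c : Eu 3 → ℝ) (sc : ContDiffAt ℝ ∞ c p), (∀ x, gq x i j = c x) →
      D i (mk _ s0) * D j (mk _ s0) +
      (mk _ s0 ^ 3 + mk _ sH * mk _ s0) * D i (mk _ s1) * D j (mk _ s1) +
      (D i (mk _ s1) * D j (mk _ sτ) + D i (mk _ sτ) * D j (mk _ s1)) = mk _ sE * mk c sc := by
    intro i j c sc hgc
    simp only [D_mk, mk_pow, mk_mul, mk_add, mk_eq]
    filter_upwards [d2, hUn] with x hx hxU
    have := conf_eq (hc.eq x hxU) i j
    simp only [Pi.add_apply, Pi.mul_apply, Pi.pow_apply]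
    rw [pd_half hx, pd_half hx, ← hgc x, ← this]
    ring
  have k00 := K 0 0 (fun _ => 1) contDiffAt_const (fun x => by simp [gq, ppM])
  have k11 := K 1 1 (fun x => x 0 ^ 4) (sX.pow 4) (fun x => by simp [gq, ppM])
  have k22 := K 2 2 (fun _ => 0) contDiffAt_const (fun x => by simp [gq, ppM])
  have k01 := K 0 1 (fun _ => 0) contDiffAt_const (fun x => by simp [gq, ppM])
  have k02 := K 0 2 (fun _ => 0) contDiffAt_const (fun x => by simp [gq, ppM])
  have k12 := K 1 2 (fun _ => 1 / 2) contDiffAt_const (fun x => by simp [gq, ppM])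
  have e1 : mk (fun _ => (1 : ℝ)) (contDiffAt_const (x := p)) = (1 : SG p) := rfl
  have e0 : mk (fun _ => (0 : ℝ)) (contDiffAt_const (x := p)) = (0 : SG p) := rfl
  have e2 : 2 * mk (fun _ => (1 / 2 : ℝ)) (contDiffAt_const (x := p)) = (1 : SG p) := by
    have : (2 : SG p) = mk (fun _ => (2 : ℝ)) (contDiffAt_const (x := p)) := rfl
    rw [this, mk_mul, mk_one, mk_eq]
    exact Eventually.of_forall fun x => by simp
  have eX : mk (fun x : Eu 3 => x 0 ^ 4) (sX.pow 4) = (mk _ sX) ^ 4 := rfl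
  rw [e1] at k00
  rw [eX] at k11
  rw [e0] at k22 k01 k02
  refine no_iso (R := SG p) (D 0) (D 1) (D 2 + D 2) (fun f => D_comm 1 0 f) (fun f => ?_) (fun f => ?_)
    SG_two SG_three SG_real hX (by rw [hXd]; rfl) (by rw [hXd]; rfl)
    (by rw [Derivation.add_apply, hXd]; simp) (ξ := mk _ s0) (η := mk _ s1) (τ := mk _ sτ)
    (H := mk _ sH) (H1 := mk _ sH1) hEF (hH 0) (hH 1) (by
      rw [Derivation.add_apply, hH 2, Derivation.add_apply]; ring) ?_ ?_ ?_ ?_ ?_ ?_
  · rw [Derivation.add_apply, Derivation.add_apply, map_add, D_comm 2 0]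
  · rw [Derivation.add_apply, Derivation.add_apply, map_add, D_comm 2 1]
  · linear_combination k00
  · linear_combination k11
  · simp only [Derivation.add_apply]; linear_combination 4 * k22
  · linear_combination k01
  · simp only [Derivation.add_apply]; linear_combination 2 * k02
  · simp only [Derivation.add_apply]; linear_combination 2 * k12 + mk _ sE * e2

end Pool.Agent.V11202.CK
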